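import Pool.Agent.Results.MP_3d3a24_gt.LooksSymmetric

/-!
# Convex bodies that appear centrally symmetric from the boundary of a polytope

Let `P` be any polytope circumscribed about the unit ball of `ℝⁿ`. For every `r > 1` close to `1`
there is a convex body `K` in the unit ball which appears centrally symmetric from every point of
the boundary of `r P` and is not strictly convex (so it is not an ellipsoid). More precisely this holds for the boundary of
`{y | ⟪y, c⟫ ≤ 1 for all c ∈ C}` whenever `C` is a finite set of points of the open unit ball,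
different from the centre, such that this set is bounded and the caps
`{x | ‖x‖ ≤ 1, ‖c‖ ^ 2 ≤ ⟪x, c⟫}`, `c ∈ C`, are pairwise disjoint.

The body is the closed convex hull of the orbit of the centre under the group generated by the
harmonic homologies with centre `c ∈ C` and axis the polar hyperplane of `c`. If it were strictly
convex, its boundary would be a connected subset of the closure of the orbit, hence of a single
cap.
-/

open Set Metric
open scoped RealInnerProductSpace

namespace Pool.Agent.Results.MP_3d3a24_gt.CircumscribedPolytopes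

open Pool.Agent.Results.MP_3d3a24_gt.LooksSymmetric

/-- The set of the `y` with `⟪y, c⟫ ≤ b` for all `c ∈ C`. -/
def poly {n : ℕ} (C : Set (E n)) (b : ℝ) : Set (E n) := {y | ∀ c ∈ C, ⟪y, c⟫ ≤ b}

/-- `C` is a finite set of points different from the centre in the open unit ball, the caps
`{x | ‖x‖ ≤ 1, ‖c‖ ^ 2 ≤ ⟪x, c⟫}` are pairwise disjoint, and the set of the `y` with `⟪y, c⟫ ≤ 1`
for all `c ∈ C` is bounded. -/
def Separated {n : ℕ} (C : Set (E n)) : Prop :=
  C.Finite ∧ (∀ c ∈ C, 0 < ‖c‖ ∧ ‖c‖ < 1) ∧
    (∀ c ∈ C, ∀ d ∈ C, c ≠ d → ∀ x : E n, ‖x‖ ≤ 1 → ‖c‖ ^ 2 ≤ ⟪x, c⟫ → ⟪x, d⟫ < ‖d‖ ^ 2) ∧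
    Bornology.IsBounded (poly C 1)

/-- `S` is homeomorphic to the sphere, and there is a convex body `K` inside `S`, contained in the
closed unit ball, that appears centrally symmetric from every point of `S` but is not strictly
convex, and in particular is not an ellipsoid. -/
def HasSymmetricLookingBody {n : ℕ} (S : Set (E n)) : Prop :=
  Nonempty (S ≃ₜ sphere (0 : E n) 1) ∧ ∃ K : Set (E n),
    IsCompact K ∧ Convex ℝ K ∧ (interior K).Nonempty ∧ K ⊆ closedBall (0 : E n) 1 ∧
    K ⊆ inside S ∧ (∀ p ∈ S, AppearsCentrallySymmetric K p) ∧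
    ¬ StrictConvex ℝ K ∧ ¬ IsEllipsoid K

section general

variable {n : ℕ} {C : Set (E n)}

/-- The closed convex hull of the orbit. -/
def hull (C : Set (E n)) : Set (E n) := closure (convexHull ℝ (orbit C))

lemma lt_one (h : Separated C) : ∀ c ∈ C, ‖c‖ < 1 := fun c hc => (h.2.1 c hc).2

lemma sep (h : Separated C) : ∀ c ∈ C, ∀ d ∈ C, c ≠ d → ∀ x : E n, ‖x‖ ≤ 1 →
    ‖d‖ ^ 2 ≤ ⟪x, d⟫ → ⟪x, c⟫ ≤ ‖c‖ ^ 2 :=
  fun c hc d hd hcd x hx hxd => (h.2.2.1 d hd c hc (Ne.symm hcd) x hx hxd).le

lemma closure_orbit_ball (h : Separated C) : closure (orbit C) ⊆ closedBall (0 : E n) 1 :=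
  closure_minimal (orbit_subset (lt_one h)) isClosed_closedBall

lemma isCompact_closure_orbit' (h : Separated C) : IsCompact (closure (orbit C)) :=
  (isCompact_closedBall (0 : E n) 1).of_isClosed_subset isClosed_closure (closure_orbit_ball h)

lemma hull_subset (h : Separated C) : hull C ⊆ closedBall (0 : E n) 1 :=
  closure_minimal (convexHull_min (orbit_subset (lt_one h)) (convex_closedBall _ _))
    isClosed_closedBall

lemma isCompact_hull (h : Separated C) : IsCompact (hull C) :=
  (isCompact_closedBall (0 : E n) 1).of_isClosed_subset isClosed_closure (hull_subset h)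

lemma convex_hull (C : Set (E n)) : Convex ℝ (hull C) := (convex_convexHull ℝ _).closure

lemma closure_orbit_subset_hull (C : Set (E n)) : closure (orbit C) ⊆ hull C :=
  closure_mono (subset_convexHull ℝ _)

lemma zero_mem_hull (C : Set (E n)) : (0 : E n) ∈ hull C :=
  closure_orbit_subset_hull C (subset_closure (zero_mem_orbit C))

lemma hom_hull (h : Separated C) {c : E n} (hc : c ∈ C) : ∀ x ∈ hull C, hom c x ∈ hull C := by
  intro x hx
  have h1 : hom c '' hull C ⊆ closure (hom c '' convexHull ℝ (orbit C)) :=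
    ((continuousOn_hom (lt_one h c hc)).mono (hull_subset h)).image_closure
  have h2 : hom c '' convexHull ℝ (orbit C) ⊆ convexHull ℝ (orbit C) := by
    rintro _ ⟨y, hy, rfl⟩
    exact hom_convexHull (lt_one h c hc) (orbit_subset (lt_one h))
      (fun z hz => hom_orbit (lt_one h) hc hz) y hy
  exact closure_mono h2 (h1 ⟨x, hx, rfl⟩)

lemma hom_zero_eq (c : E n) : hom c 0 = (2 / (1 + ‖c‖ ^ 2)) • c := by
  unfold hom den
  simp only [inner_zero_left, mul_zero, sub_zero, mul_one, smul_zero, smul_smul]
  congr 1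
  ring

lemma interior_hull (h : Separated C) : (interior (hull C)).Nonempty := by
  have h00 : (interior (convexHull ℝ (orbit C))).Nonempty → (interior (hull C)).Nonempty :=
    fun h => h.mono (interior_mono subset_closure)
  apply h00
  rw [interior_convexHull_nonempty_iff_affineSpan_eq_top]
  have h0 : (0 : E n) ∈ orbit C := zero_mem_orbit _
  rw [AffineSubspace.affineSpan_eq_top_iff_vectorSpan_eq_top_of_nonempty ℝ (E n) (E n) ⟨0, h0⟩,
    vectorSpan_eq_span_vsub_set_right ℝ h0]
  rw [← Submodule.orthogonal_eq_bot_iff, eq_bot_iff]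
  intro v hv
  rw [Submodule.mem_bot]
  rw [Submodule.mem_orthogonal] at hv
  have hc0 : ∀ c ∈ C, ⟪v, c⟫ = 0 := by
    intro c hc
    have h1 : hom c 0 ∈ Submodule.span ℝ ((fun x : E n => x -ᵥ (0 : E n)) '' orbit C) := by
      apply Submodule.subset_span
      exact ⟨_, hom_orbit (lt_one h) hc h0, by simp⟩
    have h2 := hv _ h1
    rw [hom_zero_eq, real_inner_smul_left] at h2
    have h3 : (2 / (1 + ‖c‖ ^ 2)) ≠ 0 := by positivity
    have h4 := (mul_eq_zero.1 h2).resolve_left h3
    rw [real_inner_comm]
    exact h4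
  by_contra hne
  have hpos : 0 < ‖v‖ := norm_pos_iff.2 hne
  obtain ⟨R, hR⟩ := (isBounded_iff_forall_norm_le.1 h.2.2.2)
  have h5 : ((|R| + 1) / ‖v‖) • v ∈ poly C 1 := by
    intro c hc
    rw [real_inner_smul_left, hc0 c hc, mul_zero]
    exact zero_le_one
  have h6 := hR _ h5
  rw [norm_smul, Real.norm_eq_abs, abs_of_pos (by positivity), div_mul_cancel₀ _ hpos.ne'] at h6
  have := le_abs_self R
  linarith

lemma convex_poly (C : Set (E n)) (b : ℝ) : Convex ℝ (poly C b) := by
  intro x hx y hy s t hs ht hst c hc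
  have h1 := hx c hc
  have h2 := hy c hc
  rw [inner_add_left, real_inner_smul_left, real_inner_smul_left]
  have hs' : s = 1 - t := by linarith
  subst hs'
  nlinarith

lemma isClosed_poly (C : Set (E n)) (b : ℝ) : IsClosed (poly C b) := by
  have : poly C b = ⋂ c ∈ C, {x : E n | ⟪x, c⟫ ≤ b} := by
    ext x; simp [poly]
  rw [this]
  refine isClosed_biInter fun c _ => ?_
  exact isClosed_le (by fun_prop) continuous_const

lemma open_poly (hC : C.Finite) (b : ℝ) : IsOpen {x : E n | ∀ c ∈ C, ⟪x, c⟫ < b} := by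
  have : {x : E n | ∀ c ∈ C, ⟪x, c⟫ < b} = ⋂ c ∈ C, {x : E n | ⟪x, c⟫ < b} := by
    ext x; simp
  rw [this]
  refine hC.isOpen_biInter fun c _ => ?_
  exact isOpen_lt (by fun_prop) continuous_const

lemma open_subset_interior (hC : C.Finite) (b : ℝ) :
    {x : E n | ∀ c ∈ C, ⟪x, c⟫ < b} ⊆ interior (poly C b) :=
  interior_maximal (fun _ hx c hc => (hx c hc).le) (open_poly hC b)

lemma ball_subset_interior_poly (h : Separated C) :
    closedBall (0 : E n) 1 ⊆ interior (poly C 1) := by
  refine Subset.trans ?_ (open_subset_interior h.1 1)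
  intro x hx c hc
  rw [mem_closedBall_zero_iff] at hx
  exact (inner_le_of_norm_le hx).trans_lt (lt_one h c hc)

lemma frontier_poly (hC : C.Finite) {p : E n} (hp : p ∈ frontier (poly C 1)) :
    ∃ c ∈ C, ⟪p, c⟫ = 1 := by
  have hp1 : p ∈ poly C 1 := (isClosed_poly C 1).frontier_subset hp
  have hp2 : p ∉ {x : E n | ∀ c ∈ C, ⟪x, c⟫ < 1} := fun h => hp.2 (open_subset_interior hC 1 h)
  simp only [mem_ofPred_eq, not_forall, not_lt] at hp2
  obtain ⟨c, hc, hpc⟩ := hp2
  exact ⟨c, hc, le_antisymm (hp1 c hc) hpc⟩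

lemma interior_subset_inside {P : Set (E n)} (hP : Bornology.IsBounded P) :
    interior P ⊆ inside (frontier P) := by
  intro x hx
  have hx1 : x ∉ frontier P := fun h => h.2 hx
  refine ⟨hx1, ?_⟩
  have hsub : connectedComponentIn (frontier P)ᶜ x ⊆ interior P := by
    apply IsPreconnected.subset_left_of_subset_union (v := (closure P)ᶜ) isOpen_interior
      isClosed_closure.isOpen_compl
    · exact disjoint_compl_right_iff_subset.2 (interior_subset.trans subset_closure)
    · refine (connectedComponentIn_subset _ _).trans ?_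
      intro y hy
      by_cases h : y ∈ interior P
      · exact Or.inl h
      · exact Or.inr (fun h2 => hy ⟨h2, h⟩)
    · exact ⟨x, mem_connectedComponentIn hx1, hx⟩
    · exact isPreconnected_connectedComponentIn
  exact hP.subset (hsub.trans interior_subset)

lemma homeo_frontier {P : Set (E n)} (hc : Convex ℝ P) (hne : (interior P).Nonempty)
    (hP : Bornology.IsBounded P) : Nonempty (frontier P ≃ₜ sphere (0 : E n) 1) := by
  obtain ⟨h, -, -, h3⟩ := exists_homeomorph_image_interior_closure_frontier_eq_unitBall hc hne hP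
  exact ⟨(h.image _).trans (Homeomorph.setCongr h3)⟩

/-- The closed cap of `c`. -/
def cap (c : E n) : Set (E n) := {x | ‖c‖ ^ 2 ≤ ⟪x, c⟫}

lemma isClosed_cap (c : E n) : IsClosed (cap c) := isClosed_le continuous_const (by fun_prop)

lemma convex_cap (c : E n) : Convex ℝ (cap c) := by
  intro x hx y hy s t hs ht hst
  have h1 : ‖c‖ ^ 2 ≤ ⟪x, c⟫ := hx
  have h2 : ‖c‖ ^ 2 ≤ ⟪y, c⟫ := hy
  show ‖c‖ ^ 2 ≤ ⟪s • x + t • y, c⟫
  rw [inner_add_left, real_inner_smul_left, real_inner_smul_left]
  have hs' : s = 1 - t := by linarith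
  subst hs'
  nlinarith

lemma closure_orbit_caps (h : Separated C) : closure (orbit C) ⊆ {0} ∪ ⋃ c ∈ C, cap c := by
  refine closure_minimal ?_ ?_
  · rintro x ⟨c, hc⟩
    rcases hc.cap (lt_one h) (sep h) with ⟨_, h0⟩ | ⟨hcC, hcap⟩
    · exact Or.inl h0
    · exact Or.inr (mem_biUnion hcC hcap)
  · exact isClosed_singleton.union (h.1.isClosed_biUnion fun c _ => isClosed_cap c)

/-- If the hull is strictly convex then its boundary is contained in the closure of the orbit. -/
lemma frontier_subset_closure (h : Separated C) (hs : StrictConvex ℝ (hull C)) :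
    frontier (hull C) ⊆ closure (orbit C) := by
  intro p hp
  have hpK : p ∈ hull C := (show IsClosed (hull C) from isClosed_closure).frontier_subset hp
  have hpi : p ∉ interior (hull C) := hp.2
  obtain ⟨f, hf⟩ := geometric_hahn_banach_open_point (convex_hull C).interior isOpen_interior hpi
  have hle : ∀ y ∈ hull C, f y ≤ f p := by
    intro y hy
    have h1 : y ∈ closure (interior (hull C)) := by
      rw [(convex_hull C).closure_interior_eq_closure_of_nonempty_interior (interior_hull h)]
      exact subset_closure hy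
    exact closure_minimal (fun z hz => (hf z hz).le) (isClosed_le f.continuous continuous_const) h1
  obtain ⟨x₀, hx₀, hmax⟩ := (isCompact_closure_orbit' h).exists_isMaxOn
    ⟨0, subset_closure (zero_mem_orbit _)⟩ f.continuous.continuousOn
  have hmax' : ∀ y ∈ closure (orbit C), f y ≤ f x₀ := fun y hy => hmax hy
  have hle2 : ∀ y ∈ hull C, f y ≤ f x₀ := by
    have hcv : Convex ℝ {y : E n | f y ≤ f x₀} := by
      intro y hy z hz s t hs ht hst
      have hy' : f y ≤ f x₀ := hy
      have hz' : f z ≤ f x₀ := hz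
      show f (s • y + t • z) ≤ f x₀
      rw [map_add, map_smul, map_smul, smul_eq_mul, smul_eq_mul]
      have hs' : s = 1 - t := by linarith
      subst hs'
      nlinarith
    have hcl : IsClosed {y : E n | f y ≤ f x₀} := isClosed_le f.continuous continuous_const
    exact closure_minimal (convexHull_min (fun y hy => hmax' y (subset_closure hy)) hcv) hcl
  have hx₀K : x₀ ∈ hull C := closure_orbit_subset_hull C hx₀
  by_contra hnot
  have hne : p ≠ x₀ := fun hpx => hnot (hpx ▸ hx₀)
  have hmid := hs hpK hx₀K hne (a := 1 / 2) (b := 1 / 2) (by norm_num) (by norm_num) (by norm_num)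
  have h1 := hf _ hmid
  rw [map_add, map_smul, map_smul, smul_eq_mul, smul_eq_mul] at h1
  have h2 := hle2 p hpK
  linarith

lemma not_strictConvex_hull (hn : 2 ≤ n) (h : Separated C) : ¬ StrictConvex ℝ (hull C) := by
  intro hs
  have hfr : Module.finrank ℝ (E n) = n := finrank_euclideanSpace_fin
  have hrank : 1 < Module.rank ℝ (E n) := by
    rw [← Module.finrank_eq_rank, hfr]
    exact_mod_cast hn
  have hnt : Nontrivial (E n) := Module.nontrivial_of_finrank_pos (R := ℝ) (by rw [hfr]; omega)
  have hcl : IsClosed (hull C) := isClosed_closure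
  obtain ⟨g, -, -, hg⟩ := exists_homeomorph_image_interior_closure_frontier_eq_unitBall
    (convex_hull C) (interior_hull h) (isCompact_hull h).isBounded
  have hT1 : frontier (hull C) = g.symm '' sphere (0 : E n) 1 := by
    rw [← hg, image_image]
    simp
  have hT : IsPreconnected (frontier (hull C)) := by
    rw [hT1]
    exact (isPreconnected_sphere hrank 0 1).image g.symm g.symm.continuous.continuousOn
  have hTX : frontier (hull C) ⊆ closure (orbit C) := frontier_subset_closure h hs
  have hTn : ∀ z ∈ frontier (hull C), ‖z‖ ≤ 1 := fun z hz =>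
    mem_closedBall_zero_iff.1 (closure_orbit_ball h (hTX hz))
  -- a point of the boundary different from the centre
  obtain ⟨p, hp, hp0⟩ : ∃ p ∈ frontier (hull C), p ≠ 0 := by
    obtain ⟨q, hq⟩ := NormedSpace.sphere_nonempty (E := E n) (x := 0) (r := 1) |>.2 zero_le_one
    by_contra hcon
    push Not at hcon
    have h1 := hcon (g.symm q) (by rw [hT1]; exact ⟨q, hq, rfl⟩)
    have h2 := hcon (g.symm (-q)) (by rw [hT1]; exact ⟨-q, by simpa using hq, rfl⟩)
    have h3 : q = -q := g.symm.injective (h1.trans h2.symm)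
    have h4 : q = 0 := by
      have h5 : (2 : ℝ) • q = 0 := by
        rw [two_smul]
        nth_rewrite 1 [h3]
        simp
      exact (smul_eq_zero.1 h5).resolve_left two_ne_zero
    rw [h4] at hq
    simp at hq
  obtain ⟨c, hc, hpc⟩ : ∃ c ∈ C, p ∈ cap c := by
    rcases closure_orbit_caps h (hTX hp) with h1 | h1
    · exact absurd h1 hp0
    · simpa using h1
  have hall : frontier (hull C) ⊆ cap c := by
    by_contra hcon
    rw [Set.not_subset] at hcon
    obtain ⟨y, hy, hyc⟩ := hcon
    set F : Set (E n) := {0} ∪ ⋃ d ∈ C \ {c}, cap d with hF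
    have hFc : IsClosed F :=
      isClosed_singleton.union ((h.1.subset sdiff_subset).isClosed_biUnion fun d _ => isClosed_cap d)
    have hcov : frontier (hull C) ⊆ cap c ∪ F := by
      intro z hz
      rcases closure_orbit_caps h (hTX hz) with h1 | h1
      · exact Or.inr (Or.inl h1)
      · simp only [mem_iUnion] at h1
        obtain ⟨d, hd, hzd⟩ := h1
        by_cases hdc : d = c
        · subst hdc
          exact Or.inl hzd
        · exact Or.inr (Or.inr (mem_biUnion (show d ∈ C \ {c} from ⟨hd, hdc⟩) hzd))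
    obtain ⟨z, hz, hz1, hz2⟩ := isPreconnected_closed_iff.1 hT (cap c) F (isClosed_cap c) hFc hcov
      ⟨p, hp, hpc⟩ ⟨y, hy, (hcov hy).resolve_left hyc⟩
    rcases hz2 with h1 | h1
    · have h2 : z = 0 := h1
      have h3 : ‖c‖ ^ 2 ≤ ⟪z, c⟫ := hz1
      rw [h2, inner_zero_left] at h3
      have := (h.2.1 c hc).1
      nlinarith
    · simp only [mem_iUnion] at h1
      obtain ⟨d, hd, hzd⟩ := h1
      exact absurd (show ‖d‖ ^ 2 ≤ ⟪z, d⟫ from hzd)
        (not_le.2 (h.2.2.1 c hc d hd.1 (fun hcd => hd.2 hcd.symm) z (hTn z hz) hz1))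
  -- the least value of the linear functional of `c` is attained at the boundary
  have hcont : Continuous (fun y : E n => ⟪y, c⟫) := by fun_prop
  obtain ⟨y₀, hy₀, hmin⟩ := (isCompact_hull h).exists_isMinOn ⟨0, zero_mem_hull C⟩
    hcont.continuousOn
  have hmin' : ∀ y ∈ hull C, ⟪y₀, c⟫ ≤ ⟪y, c⟫ := fun y hy => hmin hy
  have hcpos := (h.2.1 c hc).1
  have hy₀f : y₀ ∈ frontier (hull C) := by
    refine ⟨subset_closure hy₀, fun hint => ?_⟩
    rw [mem_interior_iff_mem_nhds, Metric.mem_nhds_iff] at hint
    obtain ⟨r, hr, hball⟩ := hint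
    have hin : y₀ - (r / 2) • c ∈ ball y₀ r := by
      rw [mem_ball, dist_eq_norm, sub_sub_cancel_left, norm_neg, norm_smul, Real.norm_eq_abs,
        abs_of_pos (by linarith)]
      have := (h.2.1 c hc).2
      nlinarith
    have h1 := hmin' _ (hball hin)
    rw [inner_sub_left, real_inner_smul_left, real_inner_self_eq_norm_sq] at h1
    have : 0 < r / 2 * ‖c‖ ^ 2 := by positivity
    linarith
  have h1 : ‖c‖ ^ 2 ≤ ⟪y₀, c⟫ := hall hy₀f
  have h2 := hmin' 0 (zero_mem_hull C)
  rw [inner_zero_left] at h2
  have : 0 < ‖c‖ ^ 2 := by positivity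
  linarith

lemma not_ellipsoid_hull (hn : 2 ≤ n) (h : Separated C) : ¬ IsEllipsoid (hull C) := by
  rintro ⟨e, he⟩
  apply not_strictConvex_hull hn h
  rw [he]
  have h1 : StrictConvex ℝ (closedBall (0 : E n) 1) := strictConvex_closedBall ℝ 0 1
  exact h1.affine_image (f := e.toAffineMap) (e.toContinuousAffineEquiv.toHomeomorph.isOpenMap)

theorem general (hn : 2 ≤ n) (h : Separated C) : HasSymmetricLookingBody (frontier (poly C 1)) := by
  have hint : (interior (poly C 1)).Nonempty := ⟨0, ball_subset_interior_poly h (by simp)⟩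
  refine ⟨homeo_frontier (convex_poly C 1) hint h.2.2.2, hull C, isCompact_hull h, convex_hull C,
    interior_hull h, hull_subset h,
    ((hull_subset h).trans (ball_subset_interior_poly h)).trans (interior_subset_inside h.2.2.2),
    ?_, not_strictConvex_hull hn h, not_ellipsoid_hull hn h⟩
  intro p hp
  obtain ⟨c, hc, hpc⟩ := frontier_poly h.1 hp
  refine appears (hull_subset h) ⟨0, zero_mem_hull C⟩ ?_ (lt_one h c hc) hpc (hom_hull h hc)
  rintro rfl
  rw [inner_zero_right] at hpc
  exact zero_ne_one hpc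

end general

/-- The dilates of a circumscribed polytope. -/
theorem circumscribed {n : ℕ} (hn : 2 ≤ n) (U : Set (E n)) (hU : U.Finite)
    (h1 : ∀ u ∈ U, ‖u‖ = 1) (hb : Bornology.IsBounded (poly U 1)) :
    ∃ μ : ℝ, 1 < μ ∧ ∀ r : ℝ, 1 < r → r < μ → HasSymmetricLookingBody (frontier (poly U r)) := by
  -- a bound for the norms of the sums of two different members
  obtain ⟨m, hm0, hm2, hm⟩ : ∃ m : ℝ, 1 ≤ m ∧ m < 2 ∧ ∀ u ∈ U, ∀ v ∈ U, u ≠ v → ‖u + v‖ ≤ m := by
    set A : Set ℝ := insert 1 ((fun w : E n × E n => ‖w.1 + w.2‖) ''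
      {w : E n × E n | w ∈ U ×ˢ U ∧ w.1 ≠ w.2}) with hA
    have hAf : A.Finite := (((hU.prod hU).subset (fun w hw => hw.1)).image _).insert 1
    obtain ⟨m, hmA, hmax⟩ := Set.exists_max_image A id hAf ⟨1, mem_insert _ _⟩
    refine ⟨m, hmax 1 (mem_insert _ _), ?_, fun u hu v hv huv =>
      hmax _ (mem_insert_of_mem _ ⟨(u, v), ⟨⟨hu, hv⟩, huv⟩, rfl⟩)⟩
    rcases hmA with rfl | ⟨⟨u, v⟩, ⟨⟨hu, hv⟩, huv⟩, rfl⟩
    · norm_num
    · have e1 := h1 u hu
      have e2 := h1 v hv
      have e3 : ⟪u, v⟫ < 1 := (inner_lt_one_iff_real_of_norm_eq_one e1 e2).2 huv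
      have e4 : ‖u + v‖ ^ 2 < 2 ^ 2 := by
        rw [norm_add_sq_real, e1, e2]
        linarith
      exact lt_of_pow_lt_pow_left₀ 2 (by norm_num) e4
  refine ⟨2 / m, ?_, ?_⟩
  · rw [lt_div_iff₀ (by linarith)]
    linarith
  · intro r hr1 hr2
    have hr0 : 0 < r := by linarith
    have hrm : m * r < 2 := by
      rw [lt_div_iff₀ (by linarith)] at hr2
      linarith
    have hpoly : poly ((fun u : E n => r⁻¹ • u) '' U) 1 = poly U r := by
      ext y
      simp only [poly, mem_ofPred_eq, forall_mem_image]
      refine forall₂_congr fun u hu => ?_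
      rw [real_inner_smul_right, inv_mul_le_iff₀ hr0, mul_one]
    rw [← hpoly]
    refine general hn ⟨hU.image _, ?_, ?_, ?_⟩
    · rintro _ ⟨u, hu, rfl⟩
      rw [norm_smul, norm_inv, Real.norm_eq_abs, abs_of_pos hr0, h1 u hu, mul_one]
      exact ⟨by positivity, inv_lt_one_of_one_lt₀ hr1⟩
    · rintro _ ⟨u, hu, rfl⟩ _ ⟨v, hv, rfl⟩ huv x hx hxu
      have huv' : u ≠ v := fun h => huv (by rw [h])
      rw [norm_smul, norm_inv, Real.norm_eq_abs, abs_of_pos hr0, h1 u hu, mul_one,
        real_inner_smul_right] at hxu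
      rw [norm_smul, norm_inv, Real.norm_eq_abs, abs_of_pos hr0, h1 v hv, mul_one,
        real_inner_smul_right]
      have hri : 0 < r⁻¹ := by positivity
      have e1 : r⁻¹ ≤ ⟪x, u⟫ := by
        rw [sq] at hxu
        exact le_of_mul_le_mul_left hxu hri
      by_contra hcon
      push Not at hcon
      have e2 : r⁻¹ ≤ ⟪x, v⟫ := by
        rw [sq] at hcon
        exact le_of_mul_le_mul_left hcon hri
      have e3 : ⟪x, u + v⟫ ≤ m := by
        refine (real_inner_le_norm x (u + v)).trans ?_
        have := hm u hu v hv huv'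
        nlinarith [norm_nonneg x, norm_nonneg (u + v)]
      rw [inner_add_right] at e3
      have e4 : 2 * r⁻¹ ≤ m := by linarith
      have e5 : 2 ≤ m * r := by
        have := mul_le_mul_of_nonneg_right e4 hr0.le
        rwa [mul_assoc, inv_mul_cancel₀ hr0.ne', mul_one] at this
      linarith
    · rw [hpoly]
      obtain ⟨R, hR⟩ := isBounded_iff_forall_norm_le.1 hb
      rw [isBounded_iff_forall_norm_le]
      refine ⟨r * R, fun y hy => ?_⟩
      have hy1 : r⁻¹ • y ∈ poly U 1 := by
        intro u hu
        rw [real_inner_smul_left, inv_mul_le_iff₀ hr0, mul_one]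
        exact hy u hu
      have := hR _ hy1
      rw [norm_smul, norm_inv, Real.norm_eq_abs, abs_of_pos hr0, inv_mul_le_iff₀ hr0] at this
      exact this

lemma separated_centers (n : ℕ) : Separated (centers n) := by
  refine ⟨?_, fun c hc => ?_, ?_, ?_⟩
  · have : centers n = range (fun i : Fin n => (EuclideanSpace.single i (4 / 5 : ℝ) : E n)) ∪
        range (fun i : Fin n => (EuclideanSpace.single i (-(4 / 5) : ℝ) : E n)) := by
      ext c
      simp only [centers, mem_ofPred_eq, mem_union, mem_range]
      constructor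
      · rintro ⟨i, h | h⟩
        · exact Or.inl ⟨i, h.symm⟩
        · exact Or.inr ⟨i, h.symm⟩
      · rintro (⟨i, h⟩ | ⟨i, h⟩)
        · exact ⟨i, Or.inl h.symm⟩
        · exact ⟨i, Or.inr h.symm⟩
    rw [this]
    exact (finite_range _).union (finite_range _)
  · rw [centers_norm hc]
    norm_num
  · intro c hc d hd hcd x hx h
    rw [centers_norm hc] at h
    rw [centers_norm hd]
    have hx2 : ‖x‖ ^ 2 ≤ 1 := by nlinarith [norm_nonneg x]
    obtain ⟨i, hi⟩ := hc
    obtain ⟨j, hj⟩ := hd
    by_cases hij : i = j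
    · subst hij
      rcases hi with rfl | rfl <;> rcases hj with rfl | rfl
      · exact absurd rfl hcd
      · rw [inner_single] at *
        linarith
      · rw [inner_single] at *
        linarith
      · exact absurd rfl hcd
    · have h2 := sq_two x hij
      rcases hi with rfl | rfl <;> rcases hj with rfl | rfl <;> rw [inner_single] at * <;>
        by_contra hcon <;> push Not at hcon <;> nlinarith
  · refine (isBounded_cube n).subset ?_
    intro y hy i
    have h1 := hy _ ⟨i, Or.inl rfl⟩
    have h2 := hy _ ⟨i, Or.inr rfl⟩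
    rw [inner_single] at h1 h2
    rw [abs_le]
    constructor <;> linarith

/-- **Bodies that look centrally symmetric from the boundary of a circumscribed polytope.** Let
`n ≥ 3`.  First part: `C` is any finite set of points of the open unit ball with pairwise disjoint
caps for which the polytope `{y | ⟪y, c⟫ ≤ 1 for all c ∈ C}` is bounded; its boundary surrounds a
convex body that appears centrally symmetric from all its points and is not strictly convex, hence
not an ellipsoid.  Second
part: the same holds for the boundary of the dilate by `r` of every polytope circumscribed about the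
unit ball, for all `r > 1` close to `1`.  Third part: the negative answer to Q1 in every dimension
`n ≥ 3`. -/
theorem result : ∀ n : ℕ, 3 ≤ n →
    (∀ C : Set (E n), Separated C → HasSymmetricLookingBody (frontier (poly C 1))) ∧
    (∀ U : Set (E n), U.Finite → (∀ u ∈ U, ‖u‖ = 1) → Bornology.IsBounded (poly U 1) →
      ∃ μ : ℝ, 1 < μ ∧ ∀ r : ℝ, 1 < r → r < μ →
        HasSymmetricLookingBody (frontier (poly U r))) ∧
    (∃ S : Set (E n), HasSymmetricLookingBody S) := by
  intro n hn
  refine ⟨fun C h => general (by omega) h, fun U hU h1 hb => circumscribed (by omega) U hU h1 hb,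
    ⟨_, general (by omega) (separated_centers n)⟩⟩

end Pool.Agent.Results.MP_3d3a24_gt.CircumscribedPolytopes
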